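import Pool.Agent.MP_a4cd82_co.h14.Host

/-! Embedding a structured bipartite graph into a host. -/

set_option linter.unusedSectionVars false
set_option linter.unusedVariables false

open Finset

namespace Pool.Agent.MP_a4cd82_co.BP

open H14

variable {V W : Type} [Fintype V] [DecidableEq V] [DecidableEq W]

open Classical in
/-- The data extracted from the host graph, for bipartite graphs with at most `n` vertices. -/
structure Host2 (H : SimpleGraph W) (ε d s₀ : ℝ) (T n : ℕ) where
  Q : Fin 2 → Finset W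
  Res : Finset W
  T1 : Fin 2 → W → Prop
  T2 : Fin 2 → W → Fin 2 → W → Prop
  cQ : ∀ c, s₀ ≤ (Q c).card
  lr : ∀ c c', c ≠ c' → LR H ε d (Q c) (Q c')
  b1 : ∀ c, (((Q c).filter fun y => ¬ T1 c y).card : ℝ) ≤ ε * (Q c).card
  b2 : ∀ c x c', (((Q c').filter fun y => ¬ T2 c x c' y).card : ℝ) ≤ ε * (Q c').card
  t12 : ∀ c x, T2 c x c x
  av : ∀ c x c' x', T1 c x → T1 c' x' → T2 c x c' x' → ∀ U : Finset W, U.card ≤ n →
    ∃ S : ℕ → Fin 2 → Finset W,
      (∀ a, S 0 a = Q a) ∧ (∀ t a, s₀ ≤ (S t a).card) ∧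
      (∀ t a, t ≠ 0 → ∀ y ∈ S t a, (a ≠ c → H.Adj x y) ∧ (a ≠ c' → H.Adj x' y)) ∧
      (∀ t a, S t a ⊆ Res ∨ (Disjoint (S t a) Res ∧ Disjoint (S t a) U)) ∧
      (∀ a, Disjoint (S T a) Res) ∧
      ∀ t t' a a', t ≤ t' + 1 → t' ≤ t + 1 → a ≠ a' → LR H ε d (S t a) (S t' a')

open Classical in
theorem embed2 {G : SimpleGraph V} {H : SimpleGraph W} {p K T : ℕ} {ε d s₀ : ℝ} (σ : Str G p K T)
    (col : V → Fin 2) (hcol : ∀ v w, G.Adj v w → col v ≠ col w) (h h' : Finset V → V)
    (hub : ∀ P, h P ∈ σ.I ∧ h' P ∈ σ.I ∧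
      (h P = h' P ∨ (σ.rk (h P) < σ.rk (h' P) ∧ h P ∈ σ.Lk (h' P))) ∧
      ∀ w, w ∉ σ.E → σ.pc w = P → ∀ u ∈ σ.I, G.Adj w u → u = h P ∨ u = h' P)
    (η : Host2 H ε d s₀ T (Fintype.card V))
    (hd0 : 0 < d) (hd1 : d ≤ 1) (hε0 : 0 ≤ ε)
    (hε : (((T + 1) * 2 : ℕ) * 2 ^ p + p + 1) * ε ≤ d ^ p / 2)
    (hK : 6 * (Fintype.card V : ℝ) < K * (d ^ p * s₀)) :
    ∃ f : V → W, Function.Injective f ∧ ∀ v w, G.Adj v w → H.Adj (f v) (f w) := by
  set κ := (T + 1) * 2 with hκ
  have hdp : 0 < d ^ p := by positivity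
  have hK0 : (0 : ℝ) < K := by
    rcases Nat.eq_zero_or_pos K with h | h
    · rw [h] at hK
      have : (0 : ℝ) ≤ Fintype.card V := Nat.cast_nonneg _
      simp only [Nat.cast_zero, zero_mul] at hK
      linarith
    · exact_mod_cast h
  have hsm : ∀ m : ℕ, K * m ≤ Fintype.card V → (m : ℝ) < d ^ p * s₀ / 6 := by
    intro m hm
    have : (K : ℝ) * m ≤ Fintype.card V := by exact_mod_cast hm
    by_contra h
    nlinarith [mul_le_mul_of_nonneg_left (not_lt.1 h) hK0.le]
  have hs0 : 0 < s₀ := by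
    have := hsm 0 (by simp)
    by_contra h
    have := mul_nonpos_of_nonneg_of_nonpos hdp.le (not_lt.1 h)
    simp only [Nat.cast_zero] at *
    linarith
  have hε1 : ε ≤ d ^ p := by
    have a1 : (0 : ℝ) ≤ κ * 2 ^ p + p := by positivity
    nlinarith [mul_nonneg a1 hε0]
  have hroom : ∀ (X : Finset W) (a : ℝ), s₀ ≤ X.card → a < d ^ p * s₀ / 2 →
      a + (κ * 2 ^ p + p + 1) * (ε * X.card) < d ^ p * X.card := by
    intro X a a1 a2
    have a3 := mul_le_mul_of_nonneg_right hε (Nat.cast_nonneg (α := ℝ) X.card)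
    nlinarith [mul_le_mul_of_nonneg_left a1 hdp.le]
  obtain ⟨y0, -⟩ : (η.Q 0).Nonempty := card_pos.1 (by exact_mod_cast hs0.trans_le (η.cQ 0))
  obtain ⟨e, -, e2, e3, e4, e5, e6⟩ := run (G := G) (H := H) (κ := κ) hd0.le hd1 hε0 hε1 σ.inj
    σ.back σ.cR σ.memR σ.cL (fun v => η.Q (col v)) ∅ σ.E univ (subset_univ _) (by simp)
    (by
      have a1 : (univ.image fun v => η.Q (col v)) ⊆ univ.image η.Q := fun X hX => by
        obtain ⟨v, -, rfl⟩ := mem_image.1 hX
        exact mem_image_of_mem _ (mem_univ _)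
      exact ((card_le_card a1).trans card_image_le).trans (by simp; omega))
    (fun v _ w _ h => η.lr _ _ (hcol v w h)) (fun v hv w _ hw => σ.first v hv w hw) (by simp)
    (fun v => η.T1 (col v)) (fun x x' v => η.T2 (col x) x' (col v)) (fun v _ => η.b1 _)
    (fun x _ x' _ _ v _ => η.b2 _ _ _) (fun _ => y0)
    (fun v _ => hroom _ _ (η.cQ _) (by
      have := hsm _ σ.cE
      simp only [image_empty, inter_empty, card_empty, Nat.cast_zero, zero_add]
      nlinarith [mul_pos hdp hs0]))
    (fun w _ => by simp [H14.Inv, cand])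
  rw [empty_union] at e4 e6
  let D : Finset (Finset V) → Finset V := fun s => univ.filter fun w => w ∈ σ.E ∨ σ.pc w ∈ s
  have mD : ∀ s w, w ∈ D s ↔ w ∈ σ.E ∨ σ.pc w ∈ s := by simp [D]
  have key : ∀ s : Finset (Finset V), ∃ f : V → W, (∀ x ∈ σ.E, f x = e x) ∧ Set.InjOn f (D s) ∧
      (∀ v ∈ D s, ∀ x ∈ D s, G.Adj v x → H.Adj (f x) (f v)) ∧
      ∀ x ∈ D s, x ∉ σ.E → σ.t x = T → f x ∉ η.Res := by
    intro s
    induction s using Finset.induction_on with
    | empty =>
      have a1 : D ∅ = σ.E := by ext w; simp [mD]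
      rw [a1]
      exact ⟨e, fun _ _ => rfl, e3, e4, fun x hx h => absurd hx h⟩
    | insert P₀ s hP ih =>
      obtain ⟨f, f1, f2, f3, f5⟩ := ih
      obtain ⟨hI, hI', hh, hub⟩ := hub P₀
      let P := univ.filter fun w => w ∉ σ.E ∧ σ.pc w = P₀
      have mP : ∀ w, w ∈ P ↔ w ∉ σ.E ∧ σ.pc w = P₀ := by simp [P]
      have a1 : D (insert P₀ s) = D s ∪ P := by
        ext w
        simp only [mD, mP, mem_insert, mem_union]
        tauto
      have a2 : ∀ w ∈ D s, w ∉ P := by
        intro w h1 h2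
        obtain ⟨c1, c2⟩ := (mP w).1 h2
        rcases (mD s w).1 h1 with c | c
        · exact c1 c
        · exact hP (c2 ▸ c)
      have a3 : ∀ w ∈ P, ∀ x ∈ D s, G.Adj w x → x ∈ σ.E := by
        intro w hw x hx hwx
        by_contra c
        obtain ⟨c1, c2⟩ := (mP w).1 hw
        exact a2 x hx ((mP x).2 ⟨c, (σ.pcadj w x c1 c hwx).symm.trans c2⟩)
      have a4 : σ.E ⊆ D s := fun x hx => (mD s x).2 (Or.inl hx)
      have a5 := hsm _ (σ.cpc P₀)
      obtain ⟨S, s1, s2, s3, s4, s5, s6⟩ := η.av (col (h P₀)) (e (h P₀)) (col (h' P₀))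
        (e (h' P₀)) (e2 _ (σ.IE hI)).2.1 (e2 _ (σ.IE hI')).2.1
        (by
          rcases hh with c | ⟨c1, c2⟩
          · rw [c]; exact η.t12 _ _
          · exact e5 _ (σ.IE hI') _ (σ.IE hI) c2 c1)
        ((D s \ σ.E).image f) (card_image_le.trans (card_le_univ _))
      obtain ⟨g, g1, g2, g3, g4, -, -⟩ := run (G := G) (H := H) (κ := κ) hd0.le hd1 hε0 hε1 σ.inj
        σ.back σ.cR σ.memR σ.cL (fun v => S (σ.t v) (col v)) (D s) P P Subset.rfl
        (disjoint_left.2 a2)
        (by
          have c1 : (P.image fun v => S (σ.t v) (col v)) ⊆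
              (range (T + 1) ×ˢ univ).image fun q : ℕ × Fin 2 => S q.1 q.2 := fun X hX => by
            obtain ⟨v, -, rfl⟩ := mem_image.1 hX
            exact mem_image.2 ⟨(σ.t v, col v), mem_product.2
              ⟨mem_range.2 (Nat.lt_succ_of_le (σ.t6 v)), mem_univ _⟩, rfl⟩
          exact ((card_le_card c1).trans card_image_le).trans (by simp [hκ]))
        (fun v hv w hw h => s6 _ _ _ _ (σ.tadj w v ((mP w).1 hw).1 ((mP v).1 hv).1 h.symm)
          (σ.tadj v w ((mP v).1 hv).1 ((mP w).1 hw).1 h) (hcol v w h))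
        (fun v _ w hw h => absurd hw h)
        (fun w hw x hx h v hv => σ.first x (a3 w hw x hx h) v ((mP v).1 hv).1)
        (fun _ _ => True) (fun _ _ _ _ => True) (fun v _ => by simp; positivity)
        (fun _ _ _ _ _ v _ => by simp; positivity) f
        (fun v _ => hroom _ _ (s2 _ _) (by
          have c1 := hsm _ σ.cE
          have c2 := hsm _ σ.ct
          have c4 : (S (σ.t v) (col v) ∩ (D s).image f).card ≤
              σ.E.card + (univ.filter fun w => σ.t w < T).card := by
            have d1 : S (σ.t v) (col v) ∩ (D s).image f ⊆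
                (σ.E ∪ univ.filter fun w => σ.t w < T).image f := by
              intro y hy
              obtain ⟨d2, d3⟩ := mem_inter.1 hy
              obtain ⟨x, hx, rfl⟩ := mem_image.1 d3
              refine mem_image_of_mem _ ?_
              by_contra d5
              rw [mem_union, not_or, mem_filter] at d5
              rcases s4 (σ.t v) (col v) with d4 | ⟨-, d4⟩
              · have d6 := σ.t6 x
                exact f5 x hx d5.1 (by by_contra d7; exact d5.2 ⟨mem_univ _, by omega⟩) (d4 d2)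
              · exact disjoint_left.1 d4 d2 (mem_image_of_mem _ (mem_sdiff.2 ⟨hx, d5.1⟩))
            exact ((card_le_card d1).trans card_image_le).trans (card_union_le _ _)
          have c5 : ((S (σ.t v) (col v) ∩ (D s).image f).card : ℝ) ≤
              σ.E.card + (univ.filter fun w => σ.t w < T).card := by exact_mod_cast c4
          simp only [P]
          linarith))
        (fun w hw => by
          obtain ⟨c1, c2⟩ := (mP w).1 hw
          by_cases c3 : σ.t w = 0
          · have c4 := e6 w (mem_univ _) c1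
            have c5 : (D s).filter (G.Adj w) = σ.E.filter (G.Adj w) := by
              ext x
              simp only [mem_filter]
              exact ⟨fun h => ⟨a3 w hw x h.1 h.2, h.2⟩, fun h => ⟨a4 h.1, h.2⟩⟩
            have c6 : cand G H f (D s) (η.Q (col w)) w = cand G H e σ.E (η.Q (col w)) w := by
              ext y
              simp only [mem_cand]
              exact ⟨fun h => ⟨h.1, fun x hx k => f1 x hx ▸ h.2 x (a4 hx) k⟩, fun h => ⟨h.1,
                fun x hx k => (f1 x (a3 w hw x hx k)).symm ▸ h.2 x (a3 w hw x hx k) k⟩⟩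
            unfold H14.Inv at c4 ⊢
            rw [c3, s1, c5, c6]
            exact c4
          · have c6 : cand G H f (D s) (S (σ.t w) (col w)) w = S (σ.t w) (col w) := by
              refine Subset.antisymm (fun y hy => (mem_cand.1 hy).1)
                fun y hy => mem_cand.2 ⟨hy, fun x hx k => ?_⟩
              have d1 := a3 w hw x hx k
              have d2 : x ∈ σ.I := by
                by_contra d2
                exact c3 (σ.t0 x w d1 d2 c1 k)
              rw [f1 x d1]
              rcases hub w c1 c2 x d2 k with rfl | rfl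
              · exact (s3 _ _ c3 y hy).1 (hcol _ _ k)
              · exact (s3 _ _ c3 y hy).2 (hcol _ _ k)
            unfold H14.Inv
            rw [c6]
            exact mul_le_of_le_one_left (Nat.cast_nonneg _) (pow_le_one₀ hd0.le hd1))
      have g5 : ∀ x ∈ D s, g x = f x := fun x hx => g1 x (a2 x hx)
      rw [a1]
      refine ⟨g, fun x hx => by rw [g5 x (a4 hx), f1 x hx], ?_, ?_, ?_⟩
      · intro u hu v hv k
        rcases mem_union.1 (mem_coe.1 hu) with c1 | c1 <;>
          rcases mem_union.1 (mem_coe.1 hv) with c2 | c2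
        · rw [g5 u c1, g5 v c2] at k
          exact f2 c1 c2 k
        · rw [g5 u c1] at k
          exact absurd (k ▸ mem_image_of_mem f c1) (g2 v c2).2.2
        · rw [g5 v c2] at k
          exact absurd (k ▸ mem_image_of_mem f c2) (g2 u c1).2.2
        · exact g3 c1 c2 k
      · intro v hv x hx k
        rcases mem_union.1 hv with c1 | c1
        · rcases mem_union.1 hx with c2 | c2
          · rw [g5 v c1, g5 x c2]
            exact f3 v c1 x c2 k
          · exact (g4 x c2 v hv k.symm).symm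
        · exact g4 v c1 x hx k
      · intro x hx k1 k2
        rcases mem_union.1 hx with c1 | c1
        · rw [g5 x c1]; exact f5 x c1 k1 k2
        · exact disjoint_left.1 (s5 _) (k2 ▸ (g2 x c1).1)
  obtain ⟨f, -, f2, f3, -⟩ := key univ
  have a1 : ∀ w, w ∈ D univ := fun w => (mD _ _).2 (Or.inr (mem_univ _))
  exact ⟨f, fun x y h => f2 (a1 x) (a1 y) h, fun v w h => f3 w (a1 w) v (a1 v) h.symm⟩

end Pool.Agent.MP_a4cd82_co.BP
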