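import Pool.Agent.MP_a4cd82_co.bp.Mk

/-! Every two-colouring of a complete graph on `(4 + δ) n` vertices has a monochromatic host. -/

open Finset

namespace Pool.Agent.MP_a4cd82_co.BP

open H14

theorem exists_host {δ θ ε : ℝ} (hδ : 0 < δ) (θ0 : 0 < θ) (hθ : θ * (100 * (4 + δ)) = δ)
    (hε : 0 < ε) (hε1 : ε ≤ 1) : ∃ c : ℝ, 0 < c ∧ ∃ n₀ : ℕ, ∀ n, n₀ ≤ n → ∀ N : ℕ,
      (4 + δ) * n ≤ N → ∀ H : SimpleGraph (Fin N), ∃ s₀ : ℝ, c * n ≤ s₀ ∧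
      (Nonempty (Host2 H ε (θ / 2) s₀ 2 n) ∨ Nonempty (Host2 Hᶜ ε (θ / 2) s₀ 2 n)) := by
  classical
  have θ1 : θ ≤ 1 / 100 := by nlinarith
  obtain ⟨l, hl⟩ := exists_nat_ge (2 / θ ^ 2)
  rw [div_le_iff₀ (by positivity)] at hl
  obtain ⟨M, hM⟩ := exists_regSys (ε := θ ^ 2 * ε / 12) (by positivity) l
  refine ⟨θ / (M + 1), by positivity, l + M * l + 1, fun n hn N hN H => ?_⟩
  have n0 : (0 : ℝ) ≤ n := Nat.cast_nonneg _
  have n4 : 4 * n ≤ N := by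
    have : (4 * n : ℝ) ≤ N := by nlinarith
    exact_mod_cast this
  obtain ⟨σ⟩ := hM _ H univ (by rw [card_univ, Fintype.card_fin]; omega)
  have k2 := σ.kM
  have k3 := σ.tot
  rw [card_univ, Fintype.card_fin] at k3
  have m1 : N ≤ σ.k * σ.m := by
    refine k3.ge.trans ((sum_le_card_nsmul _ _ _ fun a _ => σ.cm a).trans ?_)
    rw [card_univ, Fintype.card_fin, smul_eq_mul]
  have m2 : N ≤ M * σ.m := m1.trans (Nat.mul_le_mul_right _ k2)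
  have m3 : l ≤ σ.m := by
    by_contra h
    have := Nat.mul_le_mul_left M (not_le.1 h).le
    omega
  have m4 : (l : ℝ) ≤ σ.m := by exact_mod_cast m3
  have k4 : (l : ℝ) ≤ σ.k := by exact_mod_cast σ.lk
  have t2 : θ ^ 2 ≤ θ / 100 := by nlinarith
  have l0 : (0 : ℝ) < l := by
    by_contra h
    nlinarith [mul_nonneg (neg_nonneg.2 (not_lt.1 h)) (sq_nonneg θ)]
  have big : ∀ x : ℝ, l ≤ x → 2 ≤ θ ^ 2 * x ∧ 200 ≤ θ * x := fun x hx => by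
    have a := mul_le_mul_of_nonneg_left hx (sq_nonneg θ)
    have b := mul_le_mul_of_nonneg_right t2 (l0.le.trans hx)
    constructor <;> nlinarith
  have m0 : (0 : ℝ) < σ.m := l0.trans_le m4
  have k0 : (0 : ℝ) < σ.k := l0.trans_le k4
  have e1 : θ ^ 2 * ε / 12 ≤ θ ^ 2 / 12 := by nlinarith [sq_nonneg θ]
  have mk : ∀ (G : SimpleGraph (Fin N)) (β : Fin σ.k → Fin σ.k → ℝ), (∀ a b, 0 ≤ β a b) →
      (∀ a b, β a b ≤ 1) → (∀ a b, β a b = β b a) →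
      (∀ a b, TB G (θ ^ 2 * ε / 12 * σ.m) (β a b) (σ.cl a) (σ.cl b)) →
      ¬ Nonempty (Host2 G ε (θ / 2) (θ * σ.m / 4) 2 n) → ∀ i j, θ ≤ β i j →
      Fail β θ ((1 / 4 - 10 * θ) * Fintype.card (Fin σ.k)) i j := by
    intro G β β0 β1 βs tb h i j hij
    by_contra c
    refine h (Cl.host (cl := σ.cl) (m := σ.m) ⟨σ.disj, fun a => by exact_mod_cast σ.cm a,
      fun a => by exact_mod_cast σ.mc a, β0, β1, βs, tb, θ0, by linarith, by positivity, hε.le,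
      by positivity, le_of_eq (by ring), ?_, ?_⟩ ?_ hij c)
    · nlinarith [(big _ m4).2, mul_le_mul_of_nonneg_right (e1.trans
        (show θ ^ 2 / 12 ≤ θ / 100 by nlinarith)) m0.le, mul_pos θ0 m0]
    · rw [Fintype.card_fin]
      linarith [(big _ k4).2]
    · rw [Fintype.card_fin]
      have a1 : (N : ℝ) ≤ σ.k * σ.m := by exact_mod_cast m1
      have a2 := mul_le_mul_of_nonneg_left (hN.trans a1) (show 0 ≤ 1 / 4 - 15 * θ by linarith)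
      have a3 : (1 / 4 - 15 * θ) * (4 + δ) = 1 + δ / 10 := by linarith
      rw [← mul_assoc, a3] at a2
      nlinarith [mul_nonneg hδ.le n0]
  refine ⟨θ * σ.m / 4, ?_, ?_⟩
  · have a : ((4 * n : ℕ) : ℝ) ≤ (M * σ.m : ℕ) := Nat.cast_le.2 (n4.trans m2)
    push_cast at a
    rw [div_mul_eq_mul_div, div_le_iff₀ (by positivity)]
    nlinarith [mul_le_mul_of_nonneg_left a θ0.le, mul_pos θ0 m0]
  by_contra c
  rw [not_or] at c
  let Ir : Fin σ.k → Finset (Fin σ.k) := fun a => univ.filter fun b => σ.rr a b + σ.bb a b ≠ 1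
  refine Two.false (r := σ.rr) (b := σ.bb) (θ := θ) (Ir := Ir)
    (Gd := univ.filter fun a => ¬ θ * σ.k < (Ir a).card)
    ⟨θ0, θ1, by rw [Fintype.card_fin]; exact_mod_cast k0,
      mul_nonneg (by linarith) (Nat.cast_nonneg _), le_rfl, σ.r0, σ.b0, σ.rs, σ.bs,
      fun a b h => by simpa [Ir] using h, ?_, fun a ha => ?_,
      mk H _ σ.r0 σ.r1 σ.rs σ.tr c.1, mk Hᶜ _ σ.b0 σ.b1 σ.bs σ.tb c.2⟩
  · have a1 := (markov univ (fun a => ((Ir a).card : ℝ)) (fun a _ => Nat.cast_nonneg _)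
      (θ * σ.k)).trans σ.few
    rw [Fintype.card_fin, compl_filter]
    simp only [not_not]
    refine le_of_mul_le_mul_right (a1.trans ?_) (mul_pos θ0 k0)
    nlinarith [mul_le_mul_of_nonneg_right (big _ k4).1 k0.le,
      mul_le_mul_of_nonneg_right e1 (sq_nonneg (σ.k : ℝ)), sq_nonneg (θ * σ.k)]
  · rw [Fintype.card_fin]
    exact not_lt.1 (mem_filter.1 ha).2

theorem main_aux (p : ℕ) (hp : ∀ K : ℕ, ∃ n₀ : ℕ, ∀ (V : Type) [Fintype V] [DecidableEq V]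
    (G : SimpleGraph V), n₀ ≤ Fintype.card V → ¬ K33 G → Nonempty (Str G p K 2))
    {δ : ℝ} (hδ : 0 < δ) : ∃ n₀ : ℕ, ∀ n, n₀ ≤ n → ∀ N : ℕ, (4 + δ) * n ≤ N →
      ∀ H : SimpleGraph (Fin N), ∃ J : SimpleGraph (Fin N), (J = H ∨ J = Hᶜ) ∧
        ∀ G : SimpleGraph (Fin n), ¬ K33 G →
        (∃ col : Fin n → Fin 2, ∀ v w, G.Adj v w → col v ≠ col w) →
        ∃ f : Fin n → Fin N, Function.Injective f ∧ ∀ u v, G.Adj u v → J.Adj (f u) (f v) := by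
  classical
  obtain ⟨θ, θ0, hθ⟩ : ∃ θ : ℝ, 0 < θ ∧ θ * (100 * (4 + δ)) = δ :=
    ⟨δ / (100 * (4 + δ)), by positivity, by field_simp⟩
  have θ1 : θ / 2 ≤ 1 := by nlinarith
  have d0 : (0 : ℝ) < (θ / 2) ^ p := by positivity
  have d1 : (θ / 2) ^ p ≤ 1 := pow_le_one₀ (by positivity) θ1
  have d2 : (1 : ℝ) ≤ ((2 + 1) * 2 : ℕ) * 2 ^ p + p + 1 := le_add_of_nonneg_left (by positivity)
  obtain ⟨ε, e0, e1⟩ : ∃ ε : ℝ, 0 < ε ∧
      (((2 + 1) * 2 : ℕ) * 2 ^ p + p + 1) * ε = (θ / 2) ^ p / 2 :=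
    ⟨(θ / 2) ^ p / 2 / (((2 + 1) * 2 : ℕ) * 2 ^ p + p + 1), by positivity, by field_simp⟩
  obtain ⟨c, c0, n₁, h1⟩ := exists_host hδ θ0 hθ e0
    ((le_mul_of_one_le_left e0.le d2).trans (e1.le.trans ((half_le_self d0.le).trans d1)))
  obtain ⟨K, hK⟩ := exists_nat_gt (6 / ((θ / 2) ^ p * c))
  rw [div_lt_iff₀ (by positivity)] at hK
  obtain ⟨n₂, h2⟩ := hp K
  refine ⟨n₁ + n₂ + 1, fun n hn N hN H => ?_⟩
  obtain ⟨s₀, s1, s2⟩ := h1 n (by omega) N hN H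
  have a1 : 6 * (Fintype.card (Fin n) : ℝ) < K * ((θ / 2) ^ p * s₀) := by
    rw [Fintype.card_fin]
    have b1 : (0 : ℝ) < n := by exact_mod_cast (show 0 < n by omega)
    have b2 := mul_le_mul_of_nonneg_left (mul_le_mul_of_nonneg_left s1 d0.le)
      (Nat.cast_nonneg (α := ℝ) K)
    nlinarith [mul_lt_mul_of_pos_right hK b1]
  obtain ⟨J, hJ, ⟨η⟩⟩ : ∃ J : SimpleGraph (Fin N), (J = H ∨ J = Hᶜ) ∧
      Nonempty (Host2 J ε (θ / 2) s₀ 2 (Fintype.card (Fin n))) := by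
    rw [Fintype.card_fin]
    exact s2.elim (fun k => ⟨_, Or.inl rfl, k⟩) fun k => ⟨_, Or.inr rfl, k⟩
  refine ⟨J, hJ, fun G hG ⟨col, hcol⟩ => ?_⟩
  obtain ⟨σ⟩ := h2 (Fin n) G (by rw [Fintype.card_fin]; omega) hG
  choose h hI h' hI' hh using σ.hub
  exact embed2 σ col hcol h h' (fun P => ⟨hI P, hI' P, hh P⟩) η (by positivity) θ1 e0.le e1.le a1

end Pool.Agent.MP_a4cd82_co.BP
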