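import Pool.Agent.MP_a4cd82_co.h14.Host

/-! The argument on the level of the reduced graph. -/

open Finset

namespace Pool.Agent.MP_a4cd82_co.BP

variable {ι : Type} [Fintype ι] [DecidableEq ι]

/-- The greedy embedding around the centre `i, j` gets stuck: two families of clusters with free
room have no dense pair between them. -/
def Fail (β : ι → ι → ℝ) (θ ν : ℝ) (i j : ι) : Prop :=
  ∃ (g0 g1 : ι → ℝ) (F0 F1 : Finset ι),
    ((g0 = β j ∧ g1 = β i) ∨ (g0 = 1 ∧ g1 = β i ^ 2 ∧ F1 ⊆ F0) ∨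
      (g0 = β j ^ 2 ∧ g1 = 1 ∧ F0 ⊆ F1)) ∧
    (∀ a ∈ F0, ∀ b ∈ F1, β a b < θ) ∧
    (∀ T : Finset ι, ∑ a ∈ T, g0 a ≤ (T ∩ F0).card + ν) ∧
    ∀ T : Finset ι, ∑ a ∈ T, g1 a ≤ (T ∩ F1).card + ν

/-- Two densities that add up to one outside few pairs. -/
structure Two (r b : ι → ι → ℝ) (θ ν : ℝ) (Gd : Finset ι) (Ir : ι → Finset ι) : Prop where
  θ0 : 0 < θ
  θ1 : θ ≤ 1 / 100
  k0 : 0 < Fintype.card ι
  ν0 : 0 ≤ ν
  ν1 : ν ≤ (1 / 4 - 10 * θ) * Fintype.card ι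
  r0 : ∀ a c, 0 ≤ r a c
  b0 : ∀ a c, 0 ≤ b a c
  rs : ∀ a c, r a c = r c a
  bs : ∀ a c, b a c = b c a
  one : ∀ a c, c ∉ Ir a → r a c + b a c = 1
  gd : (Gdᶜ.card : ℝ) ≤ θ * Fintype.card ι
  ir : ∀ a ∈ Gd, ((Ir a).card : ℝ) ≤ θ * Fintype.card ι
  fr : ∀ i j, θ ≤ r i j → Fail r θ ν i j
  fb : ∀ i j, θ ≤ b i j → Fail b θ ν i j

variable {r b : ι → ι → ℝ} {θ ν : ℝ} {Gd : Finset ι} {Ir : ι → Finset ι}

theorem Two.symm (h : Two r b θ ν Gd Ir) : Two b r θ ν Gd Ir :=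
  ⟨h.θ0, h.θ1, h.k0, h.ν0, h.ν1, h.b0, h.r0, h.bs, h.rs,
    fun a c k => (add_comm _ _).trans (h.one a c k), h.gd, h.ir, h.fb, h.fr⟩

omit [Fintype ι] in
theorem sdiff_real (s t : Finset ι) : (s.card : ℝ) ≤ (s \ t).card + t.card := by
  exact_mod_cast card_le_card_sdiff_add_card

omit [Fintype ι] [DecidableEq ι] in
theorem pick {s t : Finset ι} (h : (t.card : ℝ) < s.card) : ∃ a ∈ s, a ∉ t :=
  exists_mem_notMem_of_card_lt_card (by exact_mod_cast h)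

theorem Two.kpos (h : Two r b θ ν Gd Ir) : 0 < θ * Fintype.card ι :=
  mul_pos h.θ0 (by exact_mod_cast h.k0)

/-- A good cluster in `s` and a good regular partner in `t`. -/
theorem Two.pair (h : Two r b θ ν Gd Ir) {s t : Finset ι}
    (hs : θ * Fintype.card ι < s.card) (ht : 2 * (θ * Fintype.card ι) < t.card) :
    ∃ i ∈ s, ∃ j ∈ t, i ∈ Gd ∧ j ∈ Gd ∧ r i j + b i j = 1 := by
  obtain ⟨i, i1, i2⟩ := pick (h.gd.trans_lt hs)
  rw [notMem_compl] at i2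
  obtain ⟨j, j1, j2⟩ := pick (s := t) (t := Gdᶜ ∪ Ir i)
    ((H14.card_union_real _ _).trans_lt (by linarith [h.gd, h.ir i i2]))
  rw [mem_union, not_or, notMem_compl] at j2
  exact ⟨i, i1, j, j1, i2, j2.1, h.one i j j2.2⟩

omit [Fintype ι] in
theorem room {g : ι → ℝ} {T F : Finset ι} {c : ℝ} (h : ∑ a ∈ T, g a ≤ (T ∩ F).card + ν)
    (k : ∀ a ∈ T, c ≤ g a) : c * T.card ≤ (T ∩ F).card + ν := by
  have := card_nsmul_le_sum T g c k
  rw [nsmul_eq_mul] at this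
  linarith

theorem Two.low (h : Two r b θ ν Gd Ir) {g : ι → ℝ} {T F : Finset ι}
    (k : ∑ a ∈ T, g a ≤ (T ∩ F).card + ν) (k' : ∀ a ∈ T, 1 - 2 * θ ≤ g a) :
    (T.card : ℝ) ≤ (T ∩ F).card + ν + 2 * (θ * Fintype.card ι) := by
  have a1 := room k k'
  have a2 : (T.card : ℝ) ≤ Fintype.card ι := by exact_mod_cast card_le_univ T
  nlinarith [mul_le_mul_of_nonneg_left a2 h.θ0.le]

/-- Around a centre that is almost complete to `T0` and `T1`, much room is left. -/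
theorem Two.full (h : Two r b θ ν Gd Ir) {i j : ι} (hij : θ ≤ b i j) {T0 T1 : Finset ι}
    (h0 : ∀ a ∈ T0, 1 - θ ≤ b j a) (h1 : ∀ a ∈ T1, 1 - θ ≤ b i a) :
    ∃ F0 ⊆ T0, ∃ F1 ⊆ T1, (∀ a ∈ F0, ∀ c ∈ F1, b a c < θ) ∧
      (T0.card : ℝ) ≤ F0.card + ν + 2 * (θ * Fintype.card ι) ∧
      (T1.card : ℝ) ≤ F1.card + ν + 2 * (θ * Fintype.card ι) := by
  obtain ⟨g0, g1, F0, F1, c, f, s0, s1⟩ := h.fb i j hij
  have t0 := h.θ0
  have t1 := h.θ1
  have sq : ∀ x : ℝ, 1 - θ ≤ x → 1 - 2 * θ ≤ x ^ 2 := fun x hx => by nlinarith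
  refine ⟨T0 ∩ F0, inter_subset_left, T1 ∩ F1, inter_subset_left,
    fun a ha c hc => f a (mem_inter.1 ha).2 c (mem_inter.1 hc).2,
    h.low (s0 T0) fun a ha => ?_, h.low (s1 T1) fun a ha => ?_⟩
  · rcases c with ⟨rfl, -⟩ | ⟨rfl, -⟩ | ⟨rfl, -⟩
    · linarith [h0 a ha]
    · rw [Pi.one_apply]; linarith
    · exact sq _ (h0 a ha)
  · rcases c with ⟨-, rfl⟩ | ⟨-, rfl, -⟩ | ⟨-, rfl, -⟩
    · linarith [h1 a ha]
    · exact sq _ (h1 a ha)
    · rw [Pi.one_apply]; linarith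

theorem Two.dense (h : Two r b θ ν Gd Ir) {i a : ι} (h1 : r i a < θ) (h2 : a ∉ Ir i) :
    1 - θ ≤ b i a := by linarith [h.one i a h2]

/-- Two large families have a dense pair between them. -/
theorem Two.bip (h : Two r b θ ν Gd Ir) {A B : Finset ι} (f : ∀ a ∈ A, ∀ c ∈ B, r a c < θ)
    (hA : ν + 6 * (θ * Fintype.card ι) ≤ A.card) (hB : ν + 6 * (θ * Fintype.card ι) ≤ B.card) :
    False := by
  have t0 := h.kpos
  have t1 := h.θ1
  have t2 := h.ν0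
  obtain ⟨i, i1, j, j1, i2, j2, e⟩ := h.pair (s := A) (t := B) (by linarith) (by linarith)
  obtain ⟨F0, a0, F1, a1, a2, a3, a4⟩ := h.full (i := i) (j := j) (by linarith [f i i1 j j1])
    (T0 := A \ Ir j) (T1 := B \ Ir i)
    (fun a ha => h.dense (h.rs a j ▸ f a (mem_sdiff.1 ha).1 j j1) (mem_sdiff.1 ha).2)
    fun a ha => h.dense (f i i1 a (mem_sdiff.1 ha).1) (mem_sdiff.1 ha).2
  obtain ⟨x, x1, y, y1, -, -, e'⟩ := h.pair (s := F0) (t := F1)
    (by linarith [sdiff_real A (Ir j), h.ir j j2]) (by linarith [sdiff_real B (Ir i), h.ir i i2])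
  linarith [a2 x x1 y y1, f x (mem_sdiff.1 (a0 x1)).1 y (mem_sdiff.1 (a1 y1)).1]

/-- A small family inside a very large one has a dense pair with it. -/
theorem Two.dbl (h : Two r b θ ν Gd Ir) {A B : Finset ι} (f : ∀ a ∈ A, ∀ c ∈ B, r a c < θ)
    (hAB : A ⊆ B) (hA : 3 * (θ * Fintype.card ι) ≤ A.card)
    (hB : 2 * ν + 10 * (θ * Fintype.card ι) ≤ B.card) : False := by
  have t0 := h.kpos
  have t1 := h.θ1
  obtain ⟨i, i1, j, j1, i2, j2, e⟩ := h.pair (s := A) (t := A) (by linarith) (by linarith)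
  have k : ∀ a ∈ (B \ Ir i) \ Ir j, a ∈ B ∧ a ∉ Ir i ∧ a ∉ Ir j := fun a ha => by
    simpa only [mem_sdiff, and_assoc] using ha
  obtain ⟨F0, a0, F1, a1, a2, a3, a4⟩ := h.full (i := i) (j := j)
    (by linarith [f i i1 j (hAB j1)]) (T0 := (B \ Ir i) \ Ir j) (T1 := (B \ Ir i) \ Ir j)
    (fun a ha => h.dense (f j j1 a (k a ha).1) (k a ha).2.2)
    fun a ha => h.dense (f i i1 a (k a ha).1) (k a ha).2.1
  have c1 := sdiff_real B (Ir i)
  have c2 := sdiff_real (B \ Ir i) (Ir j)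
  exact h.symm.bip a2 (by linarith [h.ir i i2, h.ir j j2]) (by linarith [h.ir i i2, h.ir j j2])

theorem Two.half (h : Two r b θ ν Gd Ir) {A : Finset ι}
    (hA : (Fintype.card ι - θ * Fintype.card ι) / 2 ≤ A.card)
    (hd : ∀ i ∈ A, (Fintype.card ι - θ * Fintype.card ι) / 2 ≤ ∑ c, r i c) : False := by
  have t0 := h.kpos
  have t2 := h.ν0
  have t3 := h.ν1
  by_cases c : ∀ i ∈ A, ∀ j ∈ A, r i j < θ
  · exact h.bip c (by linarith) (by linarith)
  push Not at c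
  obtain ⟨i, hi, j, hj, c⟩ := c
  have sq : ∀ i ∈ A, Fintype.card ι / 4 - θ * Fintype.card ι / 2 ≤ ∑ c, (r i ^ 2) c := by
    intro i hi
    have a := sum_le_sum fun c (_ : c ∈ univ) =>
      (show r i c ≤ (r i ^ 2) c + 1 / 4 by rw [Pi.pow_apply]; nlinarith [sq_nonneg (r i c - 1 / 2)])
    rw [sum_add_distrib, sum_const, card_univ, nsmul_eq_mul] at a
    linarith [hd i hi]
  obtain ⟨g0, g1, F0, F1, c, f, s0, s1⟩ := h.fr i j c
  have s0 := s0 univ
  have s1 := s1 univ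
  rw [univ_inter] at s0 s1
  rcases c with ⟨rfl, rfl⟩ | ⟨rfl, rfl, c⟩ | ⟨rfl, rfl, c⟩
  · exact h.bip f (by linarith [hd j hj]) (by linarith [hd i hi])
  · simp only [Pi.one_apply, sum_const, card_univ, nsmul_eq_mul, mul_one] at s0
    exact h.dbl (fun a ha c hc => h.rs c a ▸ f c hc a ha) c (by linarith [sq i hi]) (by linarith)
  · simp only [Pi.one_apply, sum_const, card_univ, nsmul_eq_mul, mul_one] at s1
    exact h.dbl f c (by linarith [sq j hj]) (by linarith)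

/-- The greedy embedding cannot get stuck at all centres of both colours. -/
theorem Two.false (h : Two r b θ ν Gd Ir) : False := by
  classical
  let P : (ι → ι → ℝ) → Finset ι := fun β =>
    univ.filter fun i => (Fintype.card ι - θ * Fintype.card ι) / 2 ≤ ∑ c, β i c
  have a1 : Gd ⊆ P r ∪ P b := fun i hi => by
    have c1 : ∑ c ∈ (Ir i)ᶜ, (1 : ℝ) ≤ ∑ c, (r i c + b i c) :=
      (sum_congr rfl fun c hc => (h.one i c (mem_compl.1 hc)).symm).le.trans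
        (sum_le_sum_of_subset_of_nonneg (subset_univ _) fun c _ _ => add_nonneg (h.r0 i c) (h.b0 i c))
    have c2 : (((Ir i)ᶜ.card + (Ir i).card : ℕ) : ℝ) = Fintype.card ι := by rw [card_compl_add_card]
    rw [sum_const, nsmul_eq_mul, mul_one, sum_add_distrib] at c1
    push_cast at c2
    simp only [P, mem_union, mem_filter, mem_univ, true_and]
    by_contra c
    push Not at c
    linarith [h.ir i hi, c.1, c.2]
  have a2 := (Nat.cast_le.2 (card_le_card a1)).trans (H14.card_union_real _ _)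
  have a3 : ((Gdᶜ.card + Gd.card : ℕ) : ℝ) = Fintype.card ι := by rw [card_compl_add_card]
  push_cast at a3
  by_cases c : (Fintype.card ι - θ * Fintype.card ι) / 2 ≤ (P r).card
  · exact h.half c fun i hi => (mem_filter.1 hi).2
  · exact h.symm.half (A := P b) (by linarith [h.gd]) fun i hi => (mem_filter.1 hi).2

end Pool.Agent.MP_a4cd82_co.BP
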