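import Pool.Agent.MP_a4cd82_co.bp.Embed
import Pool.Agent.MP_a4cd82_co.bp.Red

/-! A dense pair of clusters is the centre of a host, or the greedy embedding gets stuck. -/

set_option linter.unusedSectionVars false

open Finset

namespace Pool.Agent.MP_a4cd82_co.BP

open H14

variable {W ι : Type} [DecidableEq W] [Fintype ι] [DecidableEq ι]

/-- A system of clusters with densities `β`, and the numerical hypotheses. -/
structure Cl (H : SimpleGraph W) (cl : ι → Finset W) (β : ι → ι → ℝ) (m e θ ε s₀ : ℝ) : Prop where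
  disj : ∀ a b, a ≠ b → Disjoint (cl a) (cl b)
  cm : ∀ a, ((cl a).card : ℝ) ≤ m
  mc : ∀ a, m ≤ (cl a).card + 1
  β0 : ∀ a b, 0 ≤ β a b
  β1 : ∀ a b, β a b ≤ 1
  βs : ∀ a b, β a b = β b a
  tb : ∀ a b, TB H e (β a b) (cl a) (cl b)
  θ0 : 0 < θ
  θ1 : θ ≤ 1
  e0 : 0 ≤ e
  ε0 : 0 ≤ ε
  s0 : 0 ≤ s₀
  es : 3 * e ≤ θ * (ε * s₀)
  sm : s₀ + 2 * e + 1 ≤ θ * m
  k2 : 2 ≤ θ * Fintype.card ι

variable {H : SimpleGraph W} {cl : ι → Finset W} {β : ι → ι → ℝ} {m e θ ε s₀ : ℝ}

open Classical in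
/-- `x` has too few neighbours in `X`. -/
def aty (H : SimpleGraph W) (e γ : ℝ) (X : Finset W) (x : W) : Prop :=
  ((X.filter (H.Adj x)).card : ℝ) + e < γ * X.card

open Classical in
/-- `x` is typical for most of the test sets and for the two central ones. -/
def Typ (H : SimpleGraph W) (e θ : ℝ) (γ : ι → ℝ) (A : Fin 2 → ι) (X : ι → Finset W) (x : W) :
    Prop :=
  ((univ.filter fun b => aty H e (γ b) (X b) x).card : ℝ) ≤ θ * Fintype.card ι ∧
    ∀ c, ¬ aty H e (γ (A c)) (X (A c)) x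

theorem Cl.big (σ : Cl H cl β m e θ ε s₀) (a : ι) : s₀ + 2 * e ≤ θ * (cl a).card := by
  nlinarith [σ.sm, mul_le_mul_of_nonneg_left (σ.mc a) σ.θ0.le, σ.θ1]

theorem Cl.big' (σ : Cl H cl β m e θ ε s₀) (a : ι) : s₀ ≤ (cl a).card := by
  nlinarith [σ.big a, σ.e0, mul_le_mul_of_nonneg_right σ.θ1 (Nat.cast_nonneg (cl a).card)]

theorem Cl.lr (σ : Cl H cl β m e θ ε s₀) {a b : ι} (hab : θ ≤ β a b) {S T : Finset W}
    (h1 : S ⊆ cl a) (h2 : T ⊆ cl b) (h3 : s₀ ≤ S.card) (h4 : s₀ ≤ T.card) : LR H ε (θ / 2) S T := by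
  have a1 := σ.es
  have a2 := σ.e0
  have a3 := mul_nonneg σ.ε0 σ.s0
  have a4 := σ.θ0
  exact (σ.tb a b).lr h1 h2 h3 h4 σ.ε0 (by nlinarith [σ.θ1]) (by linarith) (by nlinarith)

open Classical in
theorem Cl.typ_count (σ : Cl H cl β m e θ ε s₀) (A : Fin 2 → ι) {X : ι → Finset W}
    (hX : ∀ b, X b ⊆ cl b) (i : ι) :
    (((cl i).filter fun x => ¬ Typ H e θ (β i) A X x).card : ℝ) ≤ ε * (cl i).card := by
  have a0 : ∀ b, (((cl i).filter fun x => aty H e (β i b) (X b) x).card : ℝ) ≤ e := fun b =>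
    le_of_eq_of_le (congrArg _ (congrArg _ (filter_congr_decidable _ _ _).symm)) (σ.tb i b _ (hX b))
  let f : W → ℝ := fun x => ((univ.filter fun b => aty H e (β i b) (X b) x).card : ℝ)
  have a1 := markov (cl i) f (fun x _ => by positivity) (θ * Fintype.card ι)
  have a2 : ∑ x ∈ cl i, f x ≤ Fintype.card ι * e := by
    have b1 : ∑ x ∈ cl i, (univ.filter fun b => aty H e (β i b) (X b) x).card =
        ∑ b, ((cl i).filter fun x => aty H e (β i b) (X b) x).card := by
      simp only [card_filter]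
      exact sum_comm
    have b2 := sum_le_card_nsmul univ
      (fun b => (((cl i).filter fun x => aty H e (β i b) (X b) x).card : ℝ)) e fun b _ => a0 b
    rw [← Nat.cast_sum, b1, Nat.cast_sum]
    rwa [card_univ, nsmul_eq_mul] at b2
  have k0 : (0 : ℝ) < Fintype.card ι := by
    by_contra h
    nlinarith [σ.k2, σ.θ0, mul_nonneg σ.θ0.le (neg_nonneg.2 (not_lt.1 h))]
  have a3 : θ * (((cl i).filter fun x => θ * Fintype.card ι < f x).card : ℝ) ≤ e := by
    by_contra h
    nlinarith [mul_lt_mul_of_pos_right (not_le.1 h) k0]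
  have a4 := card_biUnion_real (univ : Finset (Fin 2))
    (fun c => (cl i).filter fun x => aty H e (β i (A c)) (X (A c)) x) e fun c _ => a0 _
  have a5 : ((cl i).filter fun x => ¬ Typ H e θ (β i) A X x) ⊆
      ((cl i).filter fun x => θ * Fintype.card ι < f x) ∪ (univ : Finset (Fin 2)).biUnion
        fun c => (cl i).filter fun x => aty H e (β i (A c)) (X (A c)) x := by
    intro x hx
    obtain ⟨b1, b2⟩ := mem_filter.1 hx
    by_contra h
    simp only [mem_union, mem_filter, mem_biUnion, mem_univ, b1, true_and, not_or, not_lt,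
      not_exists] at h
    exact b2 h
  have a6 := (Nat.cast_le.2 (card_le_card a5)).trans (card_union_real _ _)
  simp only [card_univ, Fintype.card_fin, Nat.cast_ofNat] at a4
  refine le_trans (le_of_mul_le_mul_left ?_ σ.θ0) (mul_le_mul_of_nonneg_left (σ.big' i) σ.ε0)
  nlinarith [mul_le_mul_of_nonneg_left a6 σ.θ0.le, mul_le_mul_of_nonneg_left a4 σ.θ0.le, σ.es,
    mul_le_mul_of_nonneg_right σ.θ1 σ.e0]

open Classical in
/-- The expected density of `nbr`. -/
noncomputable def gg (u v : Prop) (γ γ' : ℝ) : ℝ := (if u then γ else 1) * (if v then γ' else 1)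

open Classical in
theorem Cl.typ_pair (σ : Cl H cl β m e θ ε s₀) {A : Fin 2 → ι} {i i' : ι} {x x' : W}
    (h1 : Typ H e θ (β i) A cl x) (h2 : Typ H e θ (β i') A cl x')
    (h3 : Typ H e θ (β i') A (fun b => (cl b).filter (H.Adj x)) x') :
    ∃ Bad : Finset ι, (Bad.card : ℝ) ≤ 3 * (θ * Fintype.card ι) ∧
      ∀ b, (b ∉ Bad ∨ ∃ c, b = A c) → ∀ u v : Prop,
        gg u v (β i b) (β i' b) * (cl b).card ≤ (nbr H u v x x' (cl b)).card + 2 * e := by
  have he := σ.e0
  let s1 := univ.filter fun b => aty H e (β i b) (cl b) x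
  let s2 := univ.filter fun b => aty H e (β i' b) (cl b) x'
  let s3 := univ.filter fun b => aty H e (β i' b) ((cl b).filter (H.Adj x)) x'
  refine ⟨s1 ∪ s2 ∪ s3, ?_, fun b hb u v => ?_⟩
  · have a1 : (s1 ∪ s2 ∪ s3).card ≤ s1.card + s2.card + s3.card :=
      (card_union_le _ _).trans (Nat.add_le_add_right (card_union_le _ _) _)
    have a2 : ((s1 ∪ s2 ∪ s3).card : ℝ) ≤ s1.card + s2.card + s3.card := by exact_mod_cast a1
    have a3 : (s1.card : ℝ) ≤ _ := h1.1
    have a4 : (s2.card : ℝ) ≤ _ := h2.1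
    have a5 : (s3.card : ℝ) ≤ _ := h3.1
    linarith
  · have a1 : ¬ aty H e (β i b) (cl b) x ∧ ¬ aty H e (β i' b) (cl b) x' ∧
        ¬ aty H e (β i' b) ((cl b).filter (H.Adj x)) x' := by
      rcases hb with hb | ⟨c, rfl⟩
      · simpa only [s1, s2, s3, mem_union, mem_filter, mem_univ, true_and, not_or, and_assoc]
          using hb
      · exact ⟨h1.2 c, h2.2 c, h3.2 c⟩
    simp only [aty, not_lt] at a1
    obtain ⟨a1, a2, a3⟩ := a1
    unfold gg
    by_cases hu : u <;> by_cases hv : v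
    · have b1 : nbr H u v x x' (cl b) = ((cl b).filter (H.Adj x)).filter (H.Adj x') := by
        ext y; simp [mem_nbr, hu, hv, and_assoc]
      rw [if_pos hu, if_pos hv, b1]
      nlinarith [mul_le_mul_of_nonneg_left a1 (σ.β0 i' b),
        mul_le_mul_of_nonneg_right (σ.β1 i' b) he]
    · have b1 : nbr H u v x x' (cl b) = (cl b).filter (H.Adj x) := by
        ext y; simp [mem_nbr, hu, hv]
      rw [if_pos hu, if_neg hv, b1]
      linarith
    · have b1 : nbr H u v x x' (cl b) = (cl b).filter (H.Adj x') := by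
        ext y; simp [mem_nbr, hu, hv]
      rw [if_neg hu, if_pos hv, b1]
      linarith
    · have b1 : nbr H u v x x' (cl b) = cl b := by
        ext y; simp [mem_nbr, hu, hv]
      rw [if_neg hu, if_neg hv, b1]
      linarith

theorem gg_le {u v : Prop} {γ γ' : ℝ} (h0 : 0 ≤ γ) (h1 : γ ≤ 1) (h2 : 0 ≤ γ') (h3 : γ' ≤ 1) :
    0 ≤ gg u v γ γ' ∧ gg u v γ γ' ≤ 1 ∧ (u → gg u v γ γ' ≤ γ) := by
  unfold gg
  refine ⟨?_, ?_, fun hu => ?_⟩
  · split_ifs <;> positivity
  · split_ifs <;> nlinarith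
  · rw [if_pos hu]
    split_ifs <;> nlinarith

/-- Counting the room that is left. -/
theorem Cl.count (σ : Cl H cl β m e θ ε s₀) {g : ι → ℝ} {F B : Finset ι} {U : Finset W} {ν : ℝ}
    (g1 : ∀ b, g b ≤ 1) (hB : (B.card : ℝ) ≤ 4 * (θ * Fintype.card ι))
    (h : ∀ b, b ∉ F → b ∉ B → g b * m ≤ θ * m + (cl b ∩ U).card)
    (hν : U.card + 5 * (θ * Fintype.card ι) * m ≤ ν * m) (T : Finset ι) :
    ∑ a ∈ T, g a ≤ (T ∩ F).card + ν := by
  have m0 : 0 < m := by
    by_contra c
    nlinarith [σ.sm, σ.s0, σ.e0, mul_nonneg σ.θ0.le (neg_nonneg.2 (not_lt.1 c))]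
  have t0 := (mul_pos σ.θ0 m0).le
  have a1 : ∀ b, g b * m ≤ (if b ∈ F then m else 0) + ((if b ∈ B then m else 0) +
      (θ * m + (cl b ∩ U).card)) := fun b => by
    have c1 := mul_le_mul_of_nonneg_right (g1 b) m0.le
    have c2 : (0 : ℝ) ≤ (cl b ∩ U).card := Nat.cast_nonneg _
    split_ifs with k1 k2 k2
    · linarith
    · linarith
    · linarith
    · linarith [h b k1 k2]
  have a2 := sum_le_sum fun b (_ : b ∈ T) => a1 b
  have a3 : ∑ b ∈ T, (cl b ∩ U).card ≤ U.card := by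
    rw [← card_biUnion fun a _ b _ k => (σ.disj a b k).mono inter_subset_left inter_subset_left]
    exact card_le_card (biUnion_subset.2 fun _ _ => inter_subset_right)
  have a4 : ((∑ b ∈ T, (cl b ∩ U).card : ℕ) : ℝ) ≤ U.card := by exact_mod_cast a3
  have a5 : ((T ∩ B).card : ℝ) ≤ B.card := by exact_mod_cast card_le_card inter_subset_right
  have a6 : (T.card : ℝ) ≤ Fintype.card ι := by exact_mod_cast card_le_univ T
  rw [← sum_mul, sum_add_distrib, sum_add_distrib, sum_add_distrib, sum_ite_mem, sum_ite_mem,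
    sum_const, sum_const, sum_const, nsmul_eq_mul, nsmul_eq_mul, nsmul_eq_mul,
    ← Nat.cast_sum] at a2
  refine le_of_mul_le_mul_right ?_ m0
  nlinarith [mul_le_mul_of_nonneg_right (a5.trans hB) m0.le, mul_le_mul_of_nonneg_right a6 t0]

theorem Cl.host (σ : Cl H cl β m e θ ε s₀) {n : ℕ} {ν : ℝ}
    (hν : n + 5 * (θ * Fintype.card ι) * m ≤ ν * m) {i j : ι} (hij : θ ≤ β i j)
    (hF : ¬ Fail β θ ν i j) : Nonempty (Host2 H ε (θ / 2) s₀ 2 n) := by
  classical
  let A : Fin 2 → ι := ![i, j]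
  have hA : ∀ c c', c ≠ c' → θ ≤ β (A c) (A c') := by
    intro c c' h
    fin_cases c <;> fin_cases c'
    · exact absurd rfl h
    · exact hij
    · exact σ.βs i j ▸ hij
    · exact absurd rfl h
  have sub : ∀ c, cl (A c) ⊆ cl i ∪ cl j := fun c => by
    fin_cases c
    · exact subset_union_left
    · exact subset_union_right
  refine ⟨⟨fun c => cl (A c), cl i ∪ cl j, fun c => Typ H e θ (β (A c)) A cl,
    fun c x c' => Typ H e θ (β (A c')) A fun b => (cl b).filter (H.Adj x), fun c => σ.big' _,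
    fun c c' h => σ.lr (hA c c' h) Subset.rfl Subset.rfl (σ.big' _) (σ.big' _),
    fun c => σ.typ_count A (fun _ => Subset.rfl) _,
    fun c x c' => σ.typ_count A (fun _ => filter_subset _ _) _, fun c x => ?_,
    fun c x c' x' t1 t2 t3 U hU => ?_⟩⟩
  · have a1 : ∀ b, ¬ aty H e (β (A c) b) ((cl b).filter (H.Adj x)) x := by
      intro b
      unfold aty
      rw [filter_true_of_mem (s := (cl b).filter (H.Adj x)) fun y hy => (mem_filter.1 hy).2, not_lt]
      nlinarith [σ.e0, mul_le_mul_of_nonneg_right (σ.β1 (A c) b)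
        (Nat.cast_nonneg (α := ℝ) ((cl b).filter (H.Adj x)).card)]
    refine ⟨?_, fun c => a1 _⟩
    rw [filter_false_of_mem fun q _ => a1 _, card_empty, Nat.cast_zero]
    linarith [σ.k2]
  obtain ⟨Bad, a1, a2⟩ := σ.typ_pair t1 t2 t3
  let Y : Fin 2 → ι → Finset W := fun a b => nbr H (a ≠ c) (a ≠ c') x x' (cl b)
  let F : Fin 2 → Finset ι := fun a => univ.filter fun b =>
    b ≠ i ∧ b ≠ j ∧ (a ≠ c → θ ≤ β (A c) b) ∧ s₀ ≤ (Y a b \ U).card
  have mF : ∀ a b, b ∈ F a ↔ b ≠ i ∧ b ≠ j ∧ (a ≠ c → θ ≤ β (A c) b) ∧ s₀ ≤ (Y a b \ U).card :=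
    fun a b => by simp only [F, mem_filter, mem_univ, true_and]
  have mono : c = c' → ∀ a, F a ⊆ F c := fun h a b hb => by
    obtain ⟨k1, k2, -, k4⟩ := (mF a b).1 hb
    refine (mF c b).2 ⟨k1, k2, fun k => absurd rfl k, k4.trans (Nat.cast_le.2 (card_le_card
      (sdiff_subset_sdiff (fun y hy => mem_nbr.2 ⟨nbr_subset hy, fun k => absurd rfl k,
        fun k => absurd h k⟩) Subset.rfl)))⟩
  have cnt : ∀ a (T : Finset ι), ∑ b ∈ T, gg (a ≠ c) (a ≠ c') (β (A c) b) (β (A c') b) ≤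
      (T ∩ F a).card + ν := fun a => by
    have g := fun b => gg_le (u := a ≠ c) (v := a ≠ c') (σ.β0 (A c) b) (σ.β1 _ b) (σ.β0 (A c') b)
      (σ.β1 _ b)
    refine σ.count (B := insert i (insert j Bad)) (U := U) (fun b => (g b).2.1) ?_
      (fun b k1 k2 => ?_) (by linarith [Nat.cast_le (α := ℝ).2 hU])
    · have c1 : (insert i (insert j Bad)).card ≤ Bad.card + 1 + 1 :=
        (card_insert_le _ _).trans (Nat.succ_le_succ (card_insert_le _ _))
      have c2 : ((insert i (insert j Bad)).card : ℝ) ≤ Bad.card + 1 + 1 := by exact_mod_cast c1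
      linarith [σ.k2]
    · simp only [mem_insert, not_or] at k2
      have c1 : (0 : ℝ) ≤ (cl b ∩ U).card := Nat.cast_nonneg _
      have c2 : 0 ≤ m := (Nat.cast_nonneg _).trans (σ.cm b)
      by_cases k3 : a ≠ c → θ ≤ β (A c) b
      · have c3 : ((Y a b \ U).card : ℝ) < s₀ :=
          not_le.1 fun k => k1 ((mF a b).2 ⟨k2.1, k2.2.1, k3, k⟩)
        have c4 := a2 b (Or.inl k2.2.2) (a ≠ c) (a ≠ c')
        have c5 : (Y a b).card ≤ (Y a b \ U).card + (cl b ∩ U).card :=
          (card_sdiff_add_card_inter _ U).ge.trans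
            (Nat.add_le_add_left (card_le_card (inter_subset_inter_right nbr_subset)) _)
        have c6 : ((Y a b).card : ℝ) ≤ (Y a b \ U).card + (cl b ∩ U).card := by exact_mod_cast c5
        have c7 := mul_le_mul_of_nonneg_left (σ.mc b) (g b).1
        simp only [Y] at c3 c6
        nlinarith [σ.sm, (g b).2.1]
      · push Not at k3
        linarith [mul_le_mul_of_nonneg_right (((g b).2.2 k3.1).trans k3.2.le) c2]
  obtain ⟨B, b1, b2⟩ : ∃ B : Fin 2 → ι, (∀ a, B a ∈ F a) ∧ ∀ a a', a ≠ a' → θ ≤ β (B a) (B a') := by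
    by_contra k
    refine hF ⟨_, _, F 0, F 1, ?_, fun a ha b hb => not_le.1 fun h => k ⟨![a, b], fun q => ?_,
      fun q q' h' => ?_⟩, cnt 0, cnt 1⟩
    · fin_cases c <;> fin_cases c'
      · exact Or.inr (Or.inl ⟨by ext; simp [gg], by ext; simp [gg, A, sq], mono rfl 1⟩)
      · exact Or.inl ⟨by ext; simp [gg, A], by ext; simp [gg, A]⟩
      · exact Or.inl ⟨by ext; simp [gg, A], by ext; simp [gg, A]⟩
      · exact Or.inr (Or.inr ⟨by ext; simp [gg, A, sq], by ext; simp [gg], mono rfl 0⟩)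
    · fin_cases q
      · exact ha
      · exact hb
    · fin_cases q <;> fin_cases q'
      · exact absurd rfl h'
      · exact h
      · exact σ.βs a b ▸ h
      · exact absurd rfl h'
  simp only [mF] at b1
  let S : ℕ → Fin 2 → Finset W := fun t a =>
    if t = 0 then cl (A a) else if t = 1 ∧ a = c then Y a (A a) else Y a (B a) \ U
  have d1 : ∀ a, Disjoint (Y a (B a) \ U) (cl i ∪ cl j) := fun a =>
    (disjoint_union_right.2 ⟨σ.disj _ _ (b1 a).1, σ.disj _ _ (b1 a).2.1⟩).mono_left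
      (sdiff_subset.trans nbr_subset)
  have d2 : ∀ t a, s₀ ≤ (S t a).card := fun t a => by
    simp only [S]
    split_ifs with k1 k2
    · exact σ.big' _
    · have c1 := a2 (A a) (Or.inr ⟨a, rfl⟩) (a ≠ c) (a ≠ c')
      have c2 : θ ≤ gg (a ≠ c) (a ≠ c') (β (A c) (A a)) (β (A c') (A a)) := by
        rw [gg, if_neg (not_not.2 k2.2), one_mul]
        split_ifs with k3
        · exact hA _ _ k3.symm
        · exact σ.θ1
      linarith [σ.big (A a), mul_le_mul_of_nonneg_right c2 (Nat.cast_nonneg (cl (A a)).card)]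
    · exact (b1 a).2.2.2
  have d3 : ∀ t a, S t a ⊆ cl (if t = 0 ∨ (t = 1 ∧ a = c) then A a else B a) := fun t a => by
    simp only [S]
    by_cases k1 : t = 0
    · rw [if_pos k1, if_pos (Or.inl k1)]
    · rw [if_neg k1]
      by_cases k2 : t = 1 ∧ a = c
      · rw [if_pos k2, if_pos (Or.inr k2)]
        exact nbr_subset
      · rw [if_neg k2, if_neg (not_or.2 ⟨k1, k2⟩)]
        exact sdiff_subset.trans nbr_subset
  refine ⟨S, fun a => if_pos rfl, d2, fun t a ht y hy => ?_, fun t a => ?_, fun a => ?_,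
    fun t t' a a' k1 k2 k3 => σ.lr ?_ (d3 t a) (d3 t' a') (d2 t a) (d2 t' a')⟩
  · simp only [S, if_neg ht] at hy
    split_ifs at hy
    · exact (mem_nbr.1 hy).2
    · exact (mem_nbr.1 (mem_sdiff.1 hy).1).2
  · simp only [S]
    split_ifs
    · exact Or.inl (sub a)
    · exact Or.inl (nbr_subset.trans (sub a))
    · exact Or.inr ⟨d1 a, sdiff_disjoint⟩
  · simpa [S] using d1 a
  · have two : ∀ p q r : Fin 2, p ≠ q → p = r ∨ q = r := by decide
    split_ifs with q1 q2 q2
    · exact hA _ _ k3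
    · have : a = c := (two a a' c k3).resolve_right fun k => by omega
      exact this ▸ (b1 a').2.2.1 (this ▸ k3.symm)
    · have : a' = c := (two a a' c k3).resolve_left fun k => by omega
      exact σ.βs _ _ ▸ this ▸ (b1 a).2.2.1 (this ▸ k3)
    · exact b2 _ _ k3

end Pool.Agent.MP_a4cd82_co.BP
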